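import Pool.Agent.H67.NPS.Final

/-!
# Every net in `ℙ³` which is not a cone is one of the arrangements `Q_n`

The definitions (`IsNetP2`, `IsNetP3`, `IsCone`, `Qb`, `IsQ`) are in `Pool/Agent/H67/NPS/Defs.lean`.

Outline of the proof.  In the dual space a `(3, d)`-net is a family of `3 d` points in three
classes such that the line through two points of different classes contains exactly one point of
the third class.  If the net is not a cone the points span.  A convex minimisation
(`NetScale`) and an orthonormalisation (`NetOrth`) give vectors of `ℂ⁴` for which a
Cauchy-Schwarz type inequality (`NetKey`) is an equality; the vectors of every class form a tight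
frame, and after normalisation the inner products of vectors of different classes are unimodular
(`NetNormalize`, `NetExists`).  So the unitary reflection in a vector of the net exchanges the two
other points of every line through it, and such systems can be classified by hand
(`NetC1` to `NetC5`).  The remaining modules extract the incidence structure from the definition
of a net (`NPS/Core`, `NPS/Form`) and exclude a fourth block (`NPS/Final`).
-/

open Pool.NPS

namespace Pool.Agent.Results.MP_6a43c3_ag.EveryNetIsQn

/-- Every `(k, d)`-net in `ℙ³` which is not a cone has exactly three blocks, `d = 2 n` with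
`n ≥ 2`, and it is projectively equivalent (blocks to blocks) to `Q_n`. -/
theorem result : ∀ (k d : ℕ) (ℓ : Fin k → Fin d → Fin 4 → ℂ), IsNetP3 ℓ → ¬ IsCone ℓ →
    ∃ n : ℕ, 2 ≤ n ∧ k = 3 ∧ d = 2 * n ∧ IsQ ℓ n :=
  fun _ _ _ h hc => main h hc

end Pool.Agent.Results.MP_6a43c3_ag.EveryNetIsQn
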